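import Pool.Agent.Work.MP_c93117_an.Main.Defs

/-! Block [R]: Riesz representation with total variations. -/

open MeasureTheory Set Topology
open scoped NNReal CompactlySupported

namespace C93117.Riesz

universe u
variable {K : Type u} [MetricSpace K] [CompactSpace K]

/-- admissible values -/
def adm (φ : C(K, ℝ) →L[ℝ] ℝ) (f : C(K, ℝ)) : Set ℝ :=
  {y | ∃ g : C(K, ℝ), (∀ s, |g s| ≤ f s) ∧ φ g = y}

/-- modulus of a functional on the positive cone -/
noncomputable def A (φ : C(K, ℝ) →L[ℝ] ℝ) (f : C(K, ℝ)) : ℝ := sSup (adm φ f)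

variable (φ : C(K, ℝ) →L[ℝ] ℝ)

lemma norm_le_of {f g : C(K, ℝ)} (h : ∀ s, |g s| ≤ f s) : ‖g‖ ≤ ‖f‖ := by
  rw [ContinuousMap.norm_le _ (norm_nonneg _)]
  intro s
  exact (h s).trans ((le_abs_self _).trans (f.norm_coe_le_norm s))

lemma bdd (f : C(K, ℝ)) : BddAbove (adm φ f) := by
  refine ⟨‖φ‖ * ‖f‖, ?_⟩
  rintro y ⟨g, hg, rfl⟩
  calc φ g ≤ ‖φ g‖ := le_abs_self _
    _ ≤ ‖φ‖ * ‖g‖ := φ.le_opNorm g
    _ ≤ ‖φ‖ * ‖f‖ := by gcongr; exact norm_le_of hg

lemma nonempty_adm {f : C(K, ℝ)} (hf : 0 ≤ f) : (adm φ f).Nonempty :=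
  ⟨0, 0, fun s => by simpa using hf s, map_zero φ⟩

lemma le_A {f g : C(K, ℝ)} (h : ∀ s, |g s| ≤ f s) : φ g ≤ A φ f :=
  le_csSup (bdd φ f) ⟨g, h, rfl⟩

lemma A_le {f : C(K, ℝ)} (hf : 0 ≤ f) {b : ℝ}
    (h : ∀ g : C(K, ℝ), (∀ s, |g s| ≤ f s) → φ g ≤ b) : A φ f ≤ b := by
  refine csSup_le (nonempty_adm φ hf) ?_
  rintro y ⟨g, hg, rfl⟩
  exact h g hg

lemma A_nonneg {f : C(K, ℝ)} (hf : 0 ≤ f) : 0 ≤ A φ f := by
  have := le_A φ (f := f) (g := 0) (fun s => by simpa using hf s)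
  simpa using this

lemma abs_le_A {f g : C(K, ℝ)} (h : ∀ s, |g s| ≤ f s) : |φ g| ≤ A φ f := by
  rw [abs_le']
  refine ⟨le_A φ h, ?_⟩
  have := le_A φ (f := f) (g := -g) (fun s => by simpa using h s)
  simpa using this

lemma A_add {f₁ f₂ : C(K, ℝ)} (h₁ : 0 ≤ f₁) (h₂ : 0 ≤ f₂) :
    A φ (f₁ + f₂) = A φ f₁ + A φ f₂ := by
  apply le_antisymm
  · refine A_le φ (add_nonneg h₁ h₂) fun g hg => ?_
    -- g₁ = clip g to [-f₁, f₁]
    set g₁ : C(K, ℝ) := (g ⊓ f₁) ⊔ (-f₁) with hg₁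
    have e1 : ∀ s, g₁ s = max (min (g s) (f₁ s)) (-(f₁ s)) := fun s => rfl
    have b1 : ∀ s, |g₁ s| ≤ f₁ s := by
      intro s
      have h1 : 0 ≤ f₁ s := h₁ s
      rw [e1, abs_le]
      refine ⟨le_max_right _ _, max_le (min_le_right _ _) (by linarith)⟩
    have b2 : ∀ s, |(g - g₁) s| ≤ f₂ s := by
      intro s
      have h1 : 0 ≤ f₁ s := h₁ s
      have h2 : 0 ≤ f₂ s := h₂ s
      have h3 : |g s| ≤ f₁ s + f₂ s := by simpa using hg s
      rw [abs_le] at h3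
      rw [ContinuousMap.sub_apply, e1, abs_le]
      rcases le_total (g s) (f₁ s) with h4 | h4
      · rw [min_eq_left h4]
        rcases le_total (g s) (-(f₁ s)) with h5 | h5
        · rw [max_eq_right h5]; constructor <;> linarith
        · rw [max_eq_left h5]; constructor <;> linarith
      · rw [min_eq_right h4, max_eq_left (by linarith)]; constructor <;> linarith
    calc φ g = φ g₁ + φ (g - g₁) := by rw [← map_add]; congr 1; abel
      _ ≤ A φ f₁ + A φ f₂ := add_le_add (le_A φ b1) (le_A φ b2)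
  · rw [← sub_nonneg]
    -- sup over g₁, g₂
    have key : ∀ g₁ : C(K, ℝ), (∀ s, |g₁ s| ≤ f₁ s) → ∀ g₂ : C(K, ℝ), (∀ s, |g₂ s| ≤ f₂ s) →
        φ g₁ + φ g₂ ≤ A φ (f₁ + f₂) := by
      intro g₁ hg₁ g₂ hg₂
      rw [← map_add]
      refine le_A φ fun s => ?_
      calc |(g₁ + g₂) s| ≤ |g₁ s| + |g₂ s| := abs_add_le _ _
        _ ≤ _ := add_le_add (hg₁ s) (hg₂ s)
    have k1 : A φ f₁ ≤ A φ (f₁ + f₂) - A φ f₂ := by
      refine A_le φ h₁ fun g₁ hg₁ => ?_
      have : A φ f₂ ≤ A φ (f₁ + f₂) - φ g₁ := by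
        refine A_le φ h₂ fun g₂ hg₂ => ?_
        have := key g₁ hg₁ g₂ hg₂
        linarith
      linarith
    linarith

lemma A_smul {f : C(K, ℝ)} (hf : 0 ≤ f) {c : ℝ} (hc : 0 ≤ c) : A φ (c • f) = c * A φ f := by
  rcases hc.eq_or_lt with rfl | hc
  · simp only [zero_smul, zero_mul]
    refine le_antisymm (A_le φ le_rfl fun g hg => ?_) (A_nonneg φ le_rfl)
    have : g = 0 := by
      ext s
      have := hg s
      simpa using this
    rw [this, map_zero]
  · apply le_antisymm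
    · refine A_le φ (smul_nonneg hc.le hf) fun g hg => ?_
      have : φ (c⁻¹ • g) ≤ A φ f := by
        refine le_A φ fun s => ?_
        have h1 : |g s| ≤ c * f s := by simpa using hg s
        simp only [ContinuousMap.smul_apply, smul_eq_mul, abs_mul, abs_inv, abs_of_pos hc]
        rw [inv_mul_le_iff₀ hc]
        exact h1
      rw [map_smul, smul_eq_mul, inv_mul_le_iff₀ hc] at this
      exact this
    · have : A φ f ≤ c⁻¹ * A φ (c • f) := by
        refine A_le φ hf fun g hg => ?_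
        have h2 : φ (c • g) ≤ A φ (c • f) := by
          refine le_A φ fun s => ?_
          simp only [ContinuousMap.smul_apply, smul_eq_mul, abs_mul, abs_of_pos hc]
          exact mul_le_mul_of_nonneg_left (hg s) hc.le
        rw [map_smul, smul_eq_mul] at h2
        rw [le_inv_mul_iff₀ hc]
        exact h2
      rw [le_inv_mul_iff₀ hc] at this
      exact this

/-- real valued version of a compactly supported nonnegative function -/
noncomputable def toC (h : C_c(K, ℝ≥0)) : C(K, ℝ) :=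
  ⟨fun s => (h s : ℝ), by fun_prop⟩

@[simp] lemma toC_apply (h : C_c(K, ℝ≥0)) (s : K) : toC h s = (h s : ℝ) := rfl

lemma toC_nonneg (h : C_c(K, ℝ≥0)) : 0 ≤ toC h := fun s => (h s).2

lemma toC_add (h₁ h₂ : C_c(K, ℝ≥0)) : toC (h₁ + h₂) = toC h₁ + toC h₂ := by
  ext s; simp

lemma toC_smul (r : ℝ≥0) (h : C_c(K, ℝ≥0)) : toC (r • h) = (r : ℝ) • toC h := by
  ext s; simp

/-- the positive functional `(|φ| + σ φ) / 2` -/
noncomputable def Λ (φ : C(K, ℝ) →L[ℝ] ℝ) (σ : ℝ) (hσ : |σ| ≤ 1) :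
    C_c(K, ℝ≥0) →ₗ[ℝ≥0] ℝ≥0 where
  toFun h := ⟨(A φ (toC h) + σ * φ (toC h)) / 2, by
    have h1 : |φ (toC h)| ≤ A φ (toC h) :=
      abs_le_A φ (fun s => by simp)
    have h2 : |σ * φ (toC h)| ≤ A φ (toC h) := by
      rw [abs_mul]
      calc |σ| * |φ (toC h)| ≤ 1 * |φ (toC h)| := by gcongr
        _ = |φ (toC h)| := one_mul _
        _ ≤ _ := h1
    have h3 := (abs_le.1 h2).1
    linarith⟩
  map_add' h₁ h₂ := by
    apply NNReal.coe_injective
    change (A φ (toC (h₁ + h₂)) + σ * φ (toC (h₁ + h₂))) / 2 =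
      (A φ (toC h₁) + σ * φ (toC h₁)) / 2 + (A φ (toC h₂) + σ * φ (toC h₂)) / 2
    rw [toC_add, A_add φ (toC_nonneg _) (toC_nonneg _), map_add]
    ring
  map_smul' r h := by
    apply NNReal.coe_injective
    change (A φ (toC (r • h)) + σ * φ (toC (r • h))) / 2 =
      (r : ℝ) * ((A φ (toC h) + σ * φ (toC h)) / 2)
    rw [toC_smul, A_smul φ (toC_nonneg h) r.coe_nonneg, map_smul]
    simp only [smul_eq_mul]
    ring

/-- a nonnegative continuous function as an element of `C_c(K, ℝ≥0)` -/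
noncomputable def ofC (f : C(K, ℝ)) : C_c(K, ℝ≥0) where
  toFun s := Real.toNNReal (f s)
  continuous_toFun := by fun_prop
  hasCompactSupport' := HasCompactSupport.of_compactSpace _

lemma toC_ofC {f : C(K, ℝ)} (hf : 0 ≤ f) : toC (ofC f) = f := by
  ext s
  exact Real.coe_toNNReal _ (hf s)

section meas
variable [MeasurableSpace K] [BorelSpace K]

/-- the representing measure of `(|φ| + σ φ)/2` -/
noncomputable def mu (φ : C(K, ℝ) →L[ℝ] ℝ) (σ : ℝ) (hσ : |σ| ≤ 1) : Measure K :=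
  NNRealRMK.rieszMeasure (Λ φ σ hσ)

instance mu_finite (σ : ℝ) (hσ : |σ| ≤ 1) : IsFiniteMeasure (mu φ σ hσ) := by
  have : (mu φ σ hσ).Regular := NNRealRMK.rieszMeasure_regular _
  refine ⟨?_⟩
  exact isCompact_univ.measure_lt_top

lemma integral_mu_nonneg (σ : ℝ) (hσ : |σ| ≤ 1) {f : C(K, ℝ)} (hf : 0 ≤ f) :
    ∫ s, f s ∂(mu φ σ hσ) = (A φ f + σ * φ f) / 2 := by
  have h := NNRealRMK.integral_rieszMeasure (Λ φ σ hσ) (ofC f)
  have e1 : ∀ s, ((ofC f) s : ℝ) = f s := fun s => Real.coe_toNNReal _ (hf s)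
  simp only [e1] at h
  unfold mu
  rw [h]
  change (A φ (toC (ofC f)) + σ * φ (toC (ofC f))) / 2 = _
  rw [toC_ofC hf]

lemma integrable_cont (μ : Measure K) [IsFiniteMeasure μ] (f : C(K, ℝ)) :
    Integrable (fun s => f s) μ := by
  refine (integrable_const ‖f‖).mono' f.continuous.aestronglyMeasurable ?_
  exact Filter.Eventually.of_forall fun s => f.norm_coe_le_norm s

end meas

end C93117.Riesz
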